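import Mathlib

set_option autoImplicit false

namespace Pool.Agent.Results.MP_9404a8_an.FirstRow

open Metric Set Filter Topology Complex

/-- The class `S` of normalized univalent functions on the unit disc. -/
def classS : Set (ℂ → ℂ) :=
  {f | DifferentiableOn ℂ f (ball 0 1) ∧ InjOn f (ball 0 1) ∧ f 0 = 0 ∧ deriv f 0 = 1}

/-- `z / f(z)`, read as `1` at `z = 0`. -/
noncomputable def recip (f : ℂ → ℂ) (z : ℂ) : ℂ := if z = 0 then 1 else z / f z

/-- `F` is the logarithm of the bracket `((f z - f w)/(z - w)) (z/f z) (w/f w)` (with the value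
`f'(z) (z/f z)²` on the diagonal) on the bidisc, with `F 0 0 = 0`. -/
structure IsGrunskyLog (f : ℂ → ℂ) (F : ℂ → ℂ → ℂ) : Prop where
  cont : ContinuousOn (fun p : ℂ × ℂ => F p.1 p.2) (ball 0 1 ×ˢ ball 0 1)
  zero : F 0 0 = 0
  exp_ne : ∀ z ∈ ball (0 : ℂ) 1, ∀ w ∈ ball (0 : ℂ) 1, z ≠ w →
    exp (F z w) = (f z - f w) / (z - w) * recip f z * recip f w
  exp_diag : ∀ z ∈ ball (0 : ℂ) 1, exp (F z z) = deriv f z * recip f z ^ 2

/-- The higher-order Schwarzian `S^{[p,q]}(z) = ∂_z^p ∂_w^q F (z, z)`. -/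
noncomputable def schw (F : ℂ → ℂ → ℂ) (p q : ℕ) (z : ℂ) : ℂ :=
  iteratedDeriv p (fun z' => iteratedDeriv q (fun w' => F z' w') z) z

/-- The constant `(q!/q) (2q/(q+1))^{q+1}`. -/
noncomputable def KK (q : ℕ) : ℝ := (q.factorial : ℝ) / q * (2 * q / (q + 1)) ^ (q + 1)

/-- the univalent functions `z(1-κz)/(1-z²)` -/
noncomputable def kf (κ : ℝ) (z : ℂ) : ℂ := z * (1 - κ * z) / (1 - z ^ 2)

theorem N_slit {κ : ℝ} (h0 : 0 ≤ κ) (h1 : κ < 1) {z w : ℂ} (hz : ‖z‖ < 1) (hw : ‖w‖ < 1) :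
    1 - κ * (z + w) + z * w ∈ slitPlane := by
  by_contra hcon
  set N : ℂ := 1 - κ * (z + w) + z * w with hN
  rw [mem_slitPlane_iff, not_or, not_lt, not_not] at hcon
  obtain ⟨hre, him⟩ := hcon
  have hNr : N = (N.re : ℂ) := by
    apply Complex.ext <;> simp [him]
  set s : ℝ := 1 - N.re with hs
  have hs1 : 1 ≤ s := by linarith
  have e1 : w * (z - κ) = κ * z - s := by
    have : (s : ℂ) = 1 - N := by rw [hNr]; push_cast [hs]; simp
    rw [this, hN]
    ring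
  have e2 : ‖(κ : ℂ) * z - s‖ ≤ ‖z - κ‖ := by
    rw [← e1, norm_mul]
    nlinarith [norm_nonneg (z - κ)]
  have e3 : normSq ((κ : ℂ) * z - s) ≤ normSq (z - κ) := by
    rw [normSq_eq_norm_sq, normSq_eq_norm_sq]
    gcongr
  have e4 : normSq z < 1 := by
    rw [normSq_eq_norm_sq]
    nlinarith [norm_nonneg z]
  rw [normSq_apply] at e3 e4
  rw [normSq_apply] at e3
  simp only [sub_re, mul_re, ofReal_re, ofReal_im, zero_mul, sub_zero, sub_im, mul_im, add_zero] at e3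
  have hzr : z.re < 1 := (le_abs_self _).trans_lt ((abs_re_le_norm z).trans_lt hz)
  have k2 : 0 < 1 - κ ^ 2 := by nlinarith
  have k3 : (1 - κ ^ 2) * (z.re * z.re + z.im * z.im) < 1 - κ ^ 2 := by nlinarith
  have k4 : κ * (s - 1) * z.re ≤ κ * (s - 1) := by
    have : 0 ≤ κ * (s - 1) := mul_nonneg h0 (by linarith)
    nlinarith
  nlinarith [mul_nonneg (by linarith : 0 ≤ s - 1) (by linarith : 0 ≤ s + 1 - 2 * κ)]

theorem one_sub_slit {κ : ℝ} (h0 : 0 ≤ κ) (h1 : κ < 1) {z : ℂ} (hz : ‖z‖ < 1) :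
    1 - κ * z ∈ slitPlane := by
  have := N_slit h0 h1 hz (w := 0) (by simp)
  simpa using this

theorem sq_ne {z : ℂ} (hz : ‖z‖ < 1) : 1 - z ^ 2 ≠ 0 := by
  intro h
  have h1 : z ^ 2 = 1 := by linear_combination -h
  have h2 : ‖z‖ ^ 2 = 1 := by rw [← norm_pow, h1, norm_one]
  nlinarith [norm_nonneg z]

theorem kf_diff_quot {κ : ℝ} {z w : ℂ} (hz : ‖z‖ < 1) (hw : ‖w‖ < 1) :
    kf κ z - kf κ w = (z - w) * (1 - κ * (z + w) + z * w) / ((1 - z ^ 2) * (1 - w ^ 2)) := by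
  have h1 := sq_ne hz
  have h2 := sq_ne hw
  rw [kf, kf]
  field_simp
  ring

theorem kf_hasDerivAt (κ : ℝ) {z : ℂ} (hz : ‖z‖ < 1) :
    HasDerivAt (kf κ) ((1 - κ * (z + z) + z * z) / (1 - z ^ 2) ^ 2) z := by
  have h1 := sq_ne hz
  have e1 : HasDerivAt (fun z : ℂ => z * (1 - κ * z)) (1 * (1 - κ * z) + z * (-(κ * 1))) z :=
    (hasDerivAt_id z).fun_mul (((hasDerivAt_id z).const_mul (κ : ℂ)).const_sub 1)
  have e2 : HasDerivAt (fun z : ℂ => 1 - z ^ 2) (-(2 * z)) z := by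
    have := (hasDerivAt_pow 2 z).const_sub 1
    simpa using this
  have e3 := e1.fun_div e2 h1
  exact e3.congr_deriv (by congr 1; ring)

theorem kf_mem {κ : ℝ} (h0 : 0 ≤ κ) (h1 : κ < 1) : kf κ ∈ classS := by
  refine ⟨?_, ?_, by simp [kf], ?_⟩
  · intro z hz
    exact (kf_hasDerivAt κ (by simpa using hz)).differentiableAt.differentiableWithinAt
  · intro z hz w hw h
    have hz' : ‖z‖ < 1 := by simpa using hz
    have hw' : ‖w‖ < 1 := by simpa using hw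
    have h2 := kf_diff_quot (κ := κ) hz' hw'
    rw [h, sub_self, eq_comm, div_eq_zero_iff, mul_eq_zero, mul_eq_zero] at h2
    rcases h2 with (h3 | h3) | (h3 | h3)
    · exact sub_eq_zero.1 h3
    · exact absurd h3 (slitPlane_ne_zero (N_slit h0 h1 hz' hw'))
    · exact absurd h3 (sq_ne hz')
    · exact absurd h3 (sq_ne hw')
  · rw [(kf_hasDerivAt κ (by simp : ‖(0 : ℂ)‖ < 1)).deriv]
    simp

/-- the logarithm -/
noncomputable def FF (κ : ℝ) (z w : ℂ) : ℂ :=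
  log (1 - κ * (z + w) + z * w) - log (1 - κ * z) - log (1 - κ * w)

theorem kf_recip {κ : ℝ} (h0 : 0 ≤ κ) (h1 : κ < 1) {z : ℂ} (hz : ‖z‖ < 1) :
    recip (kf κ) z = (1 - z ^ 2) / (1 - κ * z) := by
  by_cases h : z = 0
  · simp [recip, h]
  · have h2 := sq_ne hz
    have h3 := slitPlane_ne_zero (one_sub_slit h0 h1 hz)
    rw [recip, if_neg h, kf]
    field_simp

theorem FF_log {κ : ℝ} (h0 : 0 ≤ κ) (h1 : κ < 1) : IsGrunskyLog (kf κ) (FF κ) := by
  have hexp : ∀ z w : ℂ, ‖z‖ < 1 → ‖w‖ < 1 →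
      exp (FF κ z w) = (1 - κ * (z + w) + z * w) / ((1 - κ * z) * (1 - κ * w)) := by
    intro z w hz hw
    have n1 := slitPlane_ne_zero (N_slit h0 h1 hz hw)
    have n2 := slitPlane_ne_zero (one_sub_slit h0 h1 hz)
    have n3 := slitPlane_ne_zero (one_sub_slit h0 h1 hw)
    rw [FF, exp_sub, exp_sub, exp_log n1, exp_log n2, exp_log n3]
    field_simp
  refine ⟨?_, by simp [FF], ?_, ?_⟩
  · unfold FF
    refine ContinuousOn.sub (ContinuousOn.sub ?_ ?_) ?_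
    · refine ContinuousOn.clog (by fun_prop) ?_
      rintro ⟨z, w⟩ ⟨hz, hw⟩
      exact N_slit h0 h1 (by simpa using hz) (by simpa using hw)
    · refine ContinuousOn.clog (by fun_prop) ?_
      rintro ⟨z, w⟩ ⟨hz, hw⟩
      exact one_sub_slit h0 h1 (by simpa using hz)
    · refine ContinuousOn.clog (by fun_prop) ?_
      rintro ⟨z, w⟩ ⟨hz, hw⟩
      exact one_sub_slit h0 h1 (by simpa using hw)
  · intro z hz w hw hne
    have hz' : ‖z‖ < 1 := by simpa using hz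
    have hw' : ‖w‖ < 1 := by simpa using hw
    have n2 := slitPlane_ne_zero (one_sub_slit h0 h1 hz')
    have n3 := slitPlane_ne_zero (one_sub_slit h0 h1 hw')
    have n4 := sq_ne hz'
    have n5 := sq_ne hw'
    have n6 : z - w ≠ 0 := sub_ne_zero.2 hne
    rw [hexp z w hz' hw', kf_recip h0 h1 hz', kf_recip h0 h1 hw', kf_diff_quot hz' hw']
    field_simp
  · intro z hz
    have hz' : ‖z‖ < 1 := by simpa using hz
    have n2 := slitPlane_ne_zero (one_sub_slit h0 h1 hz')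
    have n4 := sq_ne hz'
    rw [hexp z z hz' hz', kf_recip h0 h1 hz', (kf_hasDerivAt κ hz').deriv]
    field_simp

/-- the logarithm is determined by its defining properties -/
theorem log_unique {f : ℂ → ℂ} {F F' : ℂ → ℂ → ℂ} (h : IsGrunskyLog f F)
    (h' : IsGrunskyLog f F') : ∀ z ∈ ball (0 : ℂ) 1, ∀ w ∈ ball (0 : ℂ) 1, F' z w = F z w := by
  have hexp : ∀ z ∈ ball (0 : ℂ) 1, ∀ w ∈ ball (0 : ℂ) 1, exp (F' z w) = exp (F z w) := by
    intro z hz w hw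
    by_cases hne : z = w
    · subst hne
      rw [h.exp_diag z hz, h'.exp_diag z hz]
    · rw [h.exp_ne z hz w hw hne, h'.exp_ne z hz w hw hne]
  set B : Set (ℂ × ℂ) := ball 0 1 ×ˢ ball 0 1 with hB
  set D : ℂ × ℂ → ℝ := fun p => (F' p.1 p.2 - F p.1 p.2).im / (2 * Real.pi) with hD
  have hDc : ContinuousOn D B := by
    apply ContinuousOn.div_const
    exact Complex.continuous_im.comp_continuousOn (h'.cont.sub h.cont)
  have hDi : ∀ p ∈ B, ∃ n : ℤ, F' p.1 p.2 - F p.1 p.2 = n * (2 * Real.pi * I) := by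
    rintro p ⟨hz, hw⟩
    apply Complex.exp_eq_one_iff.1
    rw [exp_sub, hexp p.1 hz p.2 hw, div_self (exp_ne_zero _)]
  have hDz : ∀ p ∈ B, D p ∈ Set.range ((↑) : ℤ → ℝ) := by
    intro p hp
    obtain ⟨n, hn⟩ := hDi p hp
    refine ⟨n, ?_⟩
    simp only [hD]
    rw [hn]
    have : ((n : ℂ) * (2 * Real.pi * I)).im = n * (2 * Real.pi) := by simp
    rw [this, mul_div_cancel_right₀ _ Real.two_pi_pos.ne']
  have hconn : IsPreconnected B :=
    ((convex_ball (0 : ℂ) 1).prod (convex_ball (0 : ℂ) 1)).isPreconnected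
  have h00 : ((0 : ℂ), (0 : ℂ)) ∈ B := ⟨mem_ball_self one_pos, mem_ball_self one_pos⟩
  intro z hz w hw
  have hconst : D (z, w) = D (0, 0) :=
    hconn.constant_of_mapsTo (T := Set.range ((↑) : ℤ → ℝ)) ⟨
      Int.isClosedEmbedding_coe_real.isEmbedding.toHomeomorph.symm.isEmbedding.discreteTopology⟩
      hDc hDz ⟨hz, hw⟩ h00
  obtain ⟨n, hn⟩ := hDi (z, w) ⟨hz, hw⟩
  simp only [hD, h.zero, h'.zero, sub_self, zero_im, zero_div] at hconst
  simp only at hn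
  rw [hn] at hconst
  have : ((n : ℂ) * (2 * Real.pi * I)).im = n * (2 * Real.pi) := by simp
  rw [this, mul_div_cancel_right₀ _ Real.two_pi_pos.ne'] at hconst
  have hn0 : n = 0 := by exact_mod_cast hconst
  rw [hn0] at hn
  simpa [sub_eq_zero] using hn

theorem iter_w {κ : ℝ} (h0 : 0 ≤ κ) (h1 : κ < 1) {z : ℂ} (hz : ‖z‖ < 1) (m : ℕ) :
    ∀ w ∈ ball (0 : ℂ) 1, iteratedDeriv (m + 1) (fun w' => FF κ z w') w =
      (-1) ^ m * (m.factorial : ℂ) * ((z - κ) ^ (m + 1) / (1 - κ * (z + w) + z * w) ^ (m + 1)) -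
      (-1) ^ m * (m.factorial : ℂ) * ((-κ) ^ (m + 1) / (1 - κ * w) ^ (m + 1)) := by
  have hN : ∀ w : ℂ, HasDerivAt (fun w' : ℂ => 1 - κ * (z + w') + z * w') (z - κ) w := by
    intro w
    have e1 := ((((hasDerivAt_id w).const_add z).const_mul (κ : ℂ)).const_sub 1).fun_add
      ((hasDerivAt_id w).const_mul z)
    exact e1.congr_deriv (by ring)
  have hL : ∀ w : ℂ, HasDerivAt (fun w' : ℂ => 1 - κ * w') (-κ : ℂ) w := by
    intro w
    have e1 := (((hasDerivAt_id w).const_mul (κ : ℂ)).const_sub 1)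
    exact e1.congr_deriv (by ring)
  induction m with
  | zero =>
    intro w hw
    have hw' : ‖w‖ < 1 := by simpa using hw
    rw [zero_add, iteratedDeriv_one]
    have e1 := ((hN w).clog (N_slit h0 h1 hz hw')).sub_const (log (1 - κ * z))
    have e2 := e1.fun_sub ((hL w).clog (one_sub_slit h0 h1 hw'))
    unfold FF
    rw [e2.deriv]
    simp
  | succ m ih =>
    intro w hw
    have hw' : ‖w‖ < 1 := by simpa using hw
    have n1 := slitPlane_ne_zero (N_slit h0 h1 hz hw')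
    have n3 := slitPlane_ne_zero (one_sub_slit h0 h1 hw')
    rw [iteratedDeriv_succ]
    have hev : iteratedDeriv (m + 1) (fun w' => FF κ z w') =ᶠ[𝓝 w] fun w =>
        (-1) ^ m * (m.factorial : ℂ) * ((z - κ) ^ (m + 1) / (1 - κ * (z + w) + z * w) ^ (m + 1)) -
        (-1) ^ m * (m.factorial : ℂ) * ((-κ) ^ (m + 1) / (1 - κ * w) ^ (m + 1)) := by
      filter_upwards [isOpen_ball.mem_nhds hw] with w' hw' using ih w' hw'
    rw [hev.deriv_eq]
    have e1 := ((hasDerivAt_const w ((z - κ : ℂ) ^ (m + 1))).fun_div ((hN w).fun_pow (m + 1))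
      (pow_ne_zero _ n1)).const_mul ((-1) ^ m * (m.factorial : ℂ))
    have e2 := ((hasDerivAt_const w ((-κ : ℂ) ^ (m + 1))).fun_div ((hL w).fun_pow (m + 1))
      (pow_ne_zero _ n3)).const_mul ((-1) ^ m * (m.factorial : ℂ))
    rw [(e1.fun_sub e2).deriv]
    simp only [Nat.factorial_succ, add_tsub_cancel_right]
    push_cast
    field_simp
    ring

theorem schw_val {κ : ℝ} (h0 : 0 ≤ κ) (h1 : κ < 1) {z : ℂ} (hz : ‖z‖ < 1) (m : ℕ) :
    schw (FF κ) 1 (m + 1) z = (-1) ^ m * ((m + 1).factorial : ℂ) *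
      ((z - κ) ^ m * (1 - κ ^ 2) / (1 - κ * (z + z) + z * z) ^ (m + 2)) := by
  rw [schw, iteratedDeriv_one]
  have hev : (fun z' => iteratedDeriv (m + 1) (fun w' => FF κ z' w') z) =ᶠ[𝓝 z] fun z' =>
      (-1) ^ m * (m.factorial : ℂ) * ((z' - κ) ^ (m + 1) / (1 - κ * (z' + z) + z' * z) ^ (m + 1)) -
      (-1) ^ m * (m.factorial : ℂ) * ((-κ) ^ (m + 1) / (1 - κ * z) ^ (m + 1)) := by
    filter_upwards [isOpen_ball.mem_nhds (by simpa using hz : z ∈ ball (0 : ℂ) 1)] with z' hz'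
    exact iter_w h0 h1 (by simpa using hz') m z (by simpa using hz)
  rw [hev.deriv_eq]
  have n1 := slitPlane_ne_zero (N_slit h0 h1 hz hz)
  have hN : HasDerivAt (fun z' : ℂ => 1 - κ * (z' + z) + z' * z) (z - κ) z := by
    have e1 := ((((hasDerivAt_id z).add_const z).const_mul (κ : ℂ)).const_sub 1).fun_add
      ((hasDerivAt_id z).mul_const z)
    exact e1.congr_deriv (by ring)
  have hT : HasDerivAt (fun z' : ℂ => z' - κ) 1 z := (hasDerivAt_id z).sub_const _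
  have e1 := (((hT.fun_pow (m + 1)).fun_div (hN.fun_pow (m + 1))
    (pow_ne_zero _ n1)).const_mul ((-1) ^ m * (m.factorial : ℂ))).sub_const
    ((-1) ^ m * (m.factorial : ℂ) * ((-κ : ℂ) ^ (m + 1) / (1 - κ * z) ^ (m + 1)))
  rw [e1.deriv]
  have hE : 1 - (κ : ℂ) ^ 2 = (1 - κ * (z + z) + z * z) - (z - κ) * (z - κ) := by ring
  rw [hE]
  generalize 1 - (κ : ℂ) * (z + z) + z * z = N at n1
  generalize z - (κ : ℂ) = t
  simp only [Nat.factorial_succ, add_tsub_cancel_right]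
  push_cast
  field_simp
  ring

theorem KK_gt {q : ℕ} (hq : 2 ≤ q) : (q.factorial : ℝ) < KK q := by
  have hq0 : (0 : ℝ) < q := by exact_mod_cast (by omega : 0 < q)
  have hf : (0 : ℝ) < q.factorial := by exact_mod_cast q.factorial_pos
  have key : (q : ℝ) < (2 * q / (q + 1)) ^ (q + 1) := by
    rcases Nat.lt_or_ge 2 q with h | h
    · have h3 : (3 : ℝ) ≤ q := by exact_mod_cast h
      have h4 : (3 / 2 : ℝ) ≤ 2 * q / (q + 1) := by
        rw [le_div_iff₀ (by linarith)]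
        linarith
      have h5 : ∀ n : ℕ, 2 ≤ n → (n : ℝ) < (3 / 2) ^ (n + 1) := by
        intro n hn
        induction n, hn using Nat.le_induction with
        | base => norm_num
        | succ n hn ih =>
          have h6 : (2 : ℝ) ≤ n := by exact_mod_cast hn
          rw [pow_succ]
          push_cast
          linarith
      calc (q : ℝ) < (3 / 2) ^ (q + 1) := h5 q hq
        _ ≤ _ := by gcongr
    · have : q = 2 := le_antisymm h hq
      subst this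
      norm_num
  rw [KK, div_mul_eq_mul_div, lt_div_iff₀ hq0]
  exact mul_lt_mul_of_pos_left key hf

/-- **The bound `(p+q-1)!` fails in the whole first row.** For every `q ≥ 2` the number
`K_q = (q!/q) (2q/(q+1))^{q+1}` is larger than `q! = (p+q-1)!` (with `p = 1`), and for every
`C < K_q` there is a univalent `f` in `S` and a point `z` of the disc with
`|S_f^{[1,q]}(z)| (1-|z|²)^{q+1} > C`. -/
theorem result (q : ℕ) (hq : 2 ≤ q) : (q.factorial : ℝ) < KK q ∧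
    ∀ C : ℝ, C < KK q → ∃ f ∈ classS, ∃ F : ℂ → ℂ → ℂ, IsGrunskyLog f F ∧
      (∀ F' : ℂ → ℂ → ℂ, IsGrunskyLog f F' →
        ∀ z ∈ ball (0 : ℂ) 1, ∀ w ∈ ball (0 : ℂ) 1, F' z w = F z w) ∧
      ∃ z ∈ ball (0 : ℂ) 1, C < ‖schw F 1 q z‖ * (1 - ‖z‖ ^ 2) ^ (1 + q) := by
  refine ⟨KK_gt hq, fun C hC => ?_⟩
  have hq0 : (0 : ℝ) < q := by exact_mod_cast (by omega : 0 < q)
  have hq2 : (2 : ℝ) ≤ q := by exact_mod_cast hq
  set Ph : ℝ → ℝ := fun s => (q.factorial : ℝ) / q *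
    ((s / q + 2 * √(1 - s ^ 2 / q) - s) * q / (q + 1)) ^ (q + 1) with hPh
  have hPh0 : Ph 0 = KK q := by
    simp [hPh, KK]
  have hcont : Continuous Ph := by
    simp only [hPh]
    fun_prop
  have hev : ∀ᶠ s in 𝓝 (0 : ℝ), C < Ph s :=
    hcont.continuousAt.eventually (lt_mem_nhds (by rw [hPh0]; exact hC))
  obtain ⟨δ, hδ, hb⟩ := Metric.eventually_nhds_iff_ball.1 hev
  set s : ℝ := min (δ / 2) (1 / 2) with hs
  have hs0 : 0 < s := by positivity
  have hs1 : s ≤ 1 / 2 := min_le_right _ _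
  have hsC : C < Ph s := hb s (by
    rw [mem_ball_zero_iff, Real.norm_of_nonneg hs0.le]
    exact (min_le_left _ _).trans_lt (by linarith))
  set κ : ℝ := √(1 - s ^ 2 / q) with hκ
  have hsq : s ^ 2 / q ≤ 1 / 8 := by
    rw [div_le_iff₀ hq0]
    nlinarith
  have hsq0 : 0 < s ^ 2 / q := by positivity
  have hκ2 : κ ^ 2 = 1 - s ^ 2 / q := Real.sq_sqrt (by linarith)
  have hκ0 : 0 ≤ κ := Real.sqrt_nonneg _
  have hκ1 : κ < 1 := by nlinarith
  have hκs : 1 / 2 < κ := by nlinarith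
  set x : ℝ := κ - s with hx
  have hx0 : 0 ≤ x := by linarith
  have hx1 : x < 1 := by linarith
  have hxn : ‖(x : ℂ)‖ = x := by rw [Complex.norm_real, Real.norm_of_nonneg hx0]
  obtain ⟨m, rfl⟩ : ∃ m, q = m + 1 := ⟨q - 1, by omega⟩
  refine ⟨kf κ, kf_mem hκ0 hκ1, FF κ, FF_log hκ0 hκ1,
    fun F' hF' => log_unique (FF_log hκ0 hκ1) hF', x, by
      rw [mem_ball_zero_iff, hxn]; exact hx1, ?_⟩
  rw [schw_val hκ0 hκ1 (by rw [hxn]; exact hx1) m, hxn]
  have e1 : ((-1 : ℂ)) ^ m * ((m + 1).factorial : ℂ) *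
      (((x : ℂ) - κ) ^ m * (1 - (κ : ℂ) ^ 2) / (1 - κ * ((x : ℂ) + x) + x * x) ^ (m + 2)) =
      (((-1) ^ m * ((m + 1).factorial : ℝ) *
      ((x - κ) ^ m * (1 - κ ^ 2) / (1 - κ * (x + x) + x * x) ^ (m + 2)) : ℝ) : ℂ) := by
    push_cast
    ring
  have e2 : 1 - κ * (x + x) + x * x = s ^ 2 * ((m + 1 : ℕ) + 1 : ℝ) / (m + 1 : ℕ) := by
    have : 1 - κ * (x + x) + x * x = s ^ 2 + (1 - κ ^ 2) := by rw [hx]; ring
    rw [this, hκ2]
    field_simp
    ring
  have e3 : x - κ = -s := by rw [hx]; ring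
  have e4 : 1 - κ ^ 2 = s ^ 2 / (m + 1 : ℕ) := by rw [hκ2]; ring
  have e5 : 1 - x ^ 2 = s * (s / (m + 1 : ℕ) + 2 * κ - s) := by
    have : 1 - x ^ 2 = (1 - κ ^ 2) + s * (2 * κ - s) := by rw [hx]; ring
    rw [this, e4]
    ring
  rw [e1, Complex.norm_real, e2, e3, e4, e5]
  have hm0 : (0 : ℝ) < (m + 1 : ℕ) := hq0
  have hval : ‖(-1) ^ m * ((m + 1).factorial : ℝ) * ((-s) ^ m * (s ^ 2 / (m + 1 : ℕ)) /
      (s ^ 2 * ((m + 1 : ℕ) + 1 : ℝ) / (m + 1 : ℕ)) ^ (m + 2))‖ =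
      ((m + 1).factorial : ℝ) * (s ^ m * (s ^ 2 / (m + 1 : ℕ)) /
      (s ^ 2 * ((m + 1 : ℕ) + 1 : ℝ) / (m + 1 : ℕ)) ^ (m + 2)) := by
    rw [norm_mul, norm_mul, norm_div, norm_mul, norm_pow, norm_pow, norm_neg, norm_neg, norm_one,
      one_pow, one_mul, Real.norm_of_nonneg hs0.le, Real.norm_of_nonneg (by positivity),
      Real.norm_of_nonneg (by positivity : (0 : ℝ) ≤ s ^ 2 / (m + 1 : ℕ)),
      Real.norm_of_nonneg (by positivity : (0 : ℝ) ≤
        (s ^ 2 * ((m + 1 : ℕ) + 1 : ℝ) / (m + 1 : ℕ)) ^ (m + 2))]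
  rw [hval]
  refine hsC.trans_le (le_of_eq ?_)
  simp only [hPh]
  rw [← hκ]
  have hs0' := hs0.ne'
  have hmm : (((m + 1 : ℕ) : ℝ) + 1) ≠ 0 := by positivity
  rw [mul_div_assoc, mul_pow, div_pow, div_pow, mul_pow, mul_pow]
  have e6 : (s ^ 2) ^ (m + 2) = s ^ m * s ^ 2 * s ^ (m + 2) := by ring
  rw [e6]
  have e7 : (1 + (m + 1)) = m + 2 := by ring
  rw [e7]
  have e8 : m + 1 + 1 = m + 2 := rfl
  rw [e8]
  field_simp

end Pool.Agent.Results.MP_9404a8_an.FirstRow
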